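import Mathlib

/-!
# MP_45e6b1: descent right ideals need be neither self-dual nor trivial source modules

Let `F` be a field of characteristic two, `n ≥ 4` and `q = (2, 1, …, 1)`.  Then `X^q_F` is not
self-dual, is not a direct summand of a permutation module, and is not isomorphic to a direct sum
of Young modules.
-/

set_option linter.unusedSectionVars false
set_option linter.unusedSimpArgs false

namespace Pool.Agent.Results.MP_45e6b1_al.CharTwoHook

open Equiv

noncomputable section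
/-! ### Definitions -/

/-- `Des(σ) ⊆ S(q)`, where `i σ` is written `σ i` and positions are numbered from `0`: whenever
`σ (i + 1) < σ i`, the number `i + 1` is a proper partial sum `q₁ + … + q_j` of `q`. -/
def DesIn {n : ℕ} (q : Composition n) (σ : Perm (Fin n)) : Prop :=
  ∀ (i : ℕ) (h : i + 1 < n), σ ⟨i + 1, h⟩ < σ ⟨i, Nat.lt_of_succ_lt h⟩ →
    ∃ j, 0 < j ∧ j < q.length ∧ q.sizeUpTo j = i + 1

open Classical in
/-- The Solomon descent element `Ξ^q`. -/
def Xi (F : Type) [Field F] {n : ℕ} (q : Composition n) : MonoidAlgebra F (Perm (Fin n)) :=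
  ∑ σ : Perm (Fin n), if DesIn q σ then MonoidAlgebra.single σ (1 : F) else 0

/-- The module `X^q_F`.  In the problem `S_n` acts on the right, so that its product `στ` is
`τ * σ` in Mathlib, and its right ideals and right modules are left ideals and left modules over
`MonoidAlgebra F (Perm (Fin n))`. -/
def X (F : Type) [Field F] {n : ℕ} (q : Composition n) :
    Submodule (MonoidAlgebra F (Perm (Fin n))) (MonoidAlgebra F (Perm (Fin n))) :=
  Submodule.span _ {Xi F q}

/-- `X^q_F` as a representation of `S_n`. -/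
def rep (F : Type) [Field F] {n : ℕ} (q : Composition n) :
    Representation F (Perm (Fin n)) (X F q) where
  toFun g :=
    { toFun := fun v => MonoidAlgebra.single g (1 : F) • v
      map_add' := fun v w => smul_add _ v w
      map_smul' := fun r v => by
        apply Subtype.ext
        simp [Submodule.coe_smul, mul_smul_comm] }
  map_one' := by
    ext v : 2
    change MonoidAlgebra.single (1 : Perm (Fin n)) (1 : F) * v.1 = v.1
    rw [← MonoidAlgebra.one_def, one_mul]
  map_mul' g h := by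
    ext v : 2
    change MonoidAlgebra.single (g * h) (1 : F) * v.1 =
      MonoidAlgebra.single g (1 : F) * (MonoidAlgebra.single h (1 : F) * v.1)
    rw [← mul_assoc, MonoidAlgebra.single_mul_single, one_mul]

variable {F : Type} [Field F] {G : Type} [Group G]

/-- A representation is self-dual. -/
def SelfDual {V : Type} [AddCommGroup V] [Module F V] (ρ : Representation F G V) : Prop :=
  ∃ e : V ≃ₗ[F] Module.Dual F V, ∀ g v, e (ρ g v) = ρ.dual g (e v)

/-- Trivial source modules: direct summands of permutation modules. -/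
def TrivialSource {V : Type} [AddCommGroup V] [Module F V] (ρ : Representation F G V) : Prop :=
  ∃ (Ω : Type) (_ : MulAction G Ω) (ι : V →ₗ[F] MonoidAlgebra F Ω)
    (π : MonoidAlgebra F Ω →ₗ[F] V),
    (∀ g v, ι (ρ g v) = Representation.ofMulAction F G Ω g (ι v)) ∧
    (∀ g w, π (Representation.ofMulAction F G Ω g w) = ρ g (π w)) ∧ ∀ v, π (ι v) = v

/-- A representation is isomorphic to a finite direct sum of trivial source modules. -/
def SumOfTrivialSource {V : Type} [AddCommGroup V] [Module F V] (ρ : Representation F G V) :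
    Prop :=
  ∃ (r : ℕ) (W : Fin r → Type) (_ : ∀ i, AddCommGroup (W i)) (_ : ∀ i, Module F (W i))
    (σ : ∀ i, Representation F G (W i)) (e : V ≃ₗ[F] ∀ i, W i),
    (∀ i, TrivialSource (σ i)) ∧ ∀ g v i, e (ρ g v) i = σ i g (e v i)

theorem two_le {n : ℕ} (hn : 4 ≤ n) : 2 ≤ n := le_trans (by norm_num) hn

/-- The composition `(2, 1, …, 1)` of `n`. -/
def hook (n : ℕ) (hn : 2 ≤ n) : Composition n where
  blocks := 2 :: List.replicate (n - 2) 1
  blocks_pos := by
    intro i hi
    rcases List.mem_cons.1 hi with rfl | h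
    · norm_num
    · rw [(List.mem_replicate.1 h).2]; norm_num
  blocks_sum := by simp; omega

lemma sizeUpTo_hook {n : ℕ} (hn : 2 ≤ n) {j : ℕ} (hj : 0 < j) (hj' : j < (hook n hn).length) :
    (hook n hn).sizeUpTo j = j + 1 := by
  obtain ⟨k, rfl⟩ := Nat.exists_eq_succ_of_ne_zero hj.ne'
  have hl : (hook n hn).length = n - 2 + 1 := by
    simp [Composition.length, hook]
  have hk : k ≤ n - 2 := by omega
  simp [Composition.sizeUpTo, hook, List.take_replicate, hk]
  omega

lemma desIn_hook {n : ℕ} (hn : 2 ≤ n) (σ : Perm (Fin n)) :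
    DesIn (hook n hn) σ ↔ σ ⟨0, by omega⟩ < σ ⟨1, by omega⟩ := by
  have hl : (hook n hn).length = n - 2 + 1 := by
    simp [Composition.length, hook]
  constructor
  · intro h
    by_contra hlt
    have hne : σ ⟨0, by omega⟩ ≠ σ ⟨1, by omega⟩ := by
      intro e
      have := σ.injective e
      simp at this
    have h1 : σ ⟨0 + 1, by omega⟩ < σ ⟨0, by omega⟩ :=
      lt_of_le_of_ne (not_lt.1 hlt) (Ne.symm hne)
    obtain ⟨j, hj, hj', he⟩ := h 0 (by omega) h1
    rw [sizeUpTo_hook hn hj hj'] at he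
    omega
  · intro h i hi hlt
    rcases Nat.eq_zero_or_pos i with rfl | hpos
    · exact absurd h (not_lt.2 hlt.le)
    · have hi' : i < (hook n hn).length := by omega
      exact ⟨i, hpos, hi', sizeUpTo_hook hn hpos hi'⟩

end

noncomputable section
variable {F : Type} [Field F]

def ind (F : Type) [Field F] {n : ℕ} (x y : Fin n) : F := if x < y then 1 else 0

lemma coeff_Xi {n : ℕ} (hn : 2 ≤ n) (τ : Perm (Fin n)) :
    (Xi F (hook n hn)).coeff τ = ind F (τ ⟨0, by omega⟩) (τ ⟨1, by omega⟩) := by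
  classical
  unfold Xi ind
  rw [MonoidAlgebra.coeff_sum, Finsupp.finsetSum_apply, Finset.sum_eq_single τ]
  · by_cases h : τ ⟨0, by omega⟩ < τ ⟨1, by omega⟩
    · rw [if_pos ((desIn_hook hn τ).2 h), if_pos h]; simp
    · rw [if_neg (fun h' => h ((desIn_hook hn τ).1 h')), if_neg h]; simp
  · intro σ _ hσ
    split_ifs
    · rw [MonoidAlgebra.coeff_single, Finsupp.single_eq_of_ne hσ.symm]
    · simp
  · simp

lemma coeff_single_mul' {G : Type} [Group G] (g τ : G) (v : MonoidAlgebra F G) :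
    (MonoidAlgebra.single g (1 : F) * v).coeff τ = v.coeff (g⁻¹ * τ) := by
  rw [MonoidAlgebra.coeff_single_mul_eq_mul_coeff (g⁻¹ * τ)]
  · rw [one_mul]
  · intro m _
    constructor
    · rintro rfl; group
    · rintro rfl; group

section
variable {n : ℕ} (hn : 4 ≤ n)

abbrev a0 : Fin n := ⟨0, by omega⟩
abbrev a1 : Fin n := ⟨1, by omega⟩
abbrev a2 : Fin n := ⟨2, by omega⟩
abbrev a3 : Fin n := ⟨3, by omega⟩

abbrev hk : Composition n := hook n (by omega)

/-- the value of `v` at an ordered pair -/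
lemma X_prop {v : MonoidAlgebra F (Perm (Fin n))} (hv : v ∈ X F (hk hn)) :
    (∀ τ τ' : Perm (Fin n), τ (a0 hn) = τ' (a0 hn) → τ (a1 hn) = τ' (a1 hn) →
      v.coeff τ = v.coeff τ') ∧
    (∀ τ : Perm (Fin n), v.coeff τ + v.coeff (τ * swap (a0 hn) (a1 hn)) =
      v.coeff 1 + v.coeff (swap (a0 hn) (a1 hn))) := by
  obtain ⟨a, rfl⟩ := Submodule.mem_span_singleton.1 hv
  clear hv
  rw [smul_eq_mul]
  induction a using MonoidAlgebra.induction_linear with
  | zero => simp
  | add f g hf hg =>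
    obtain ⟨hf1, hf2⟩ := hf
    obtain ⟨hg1, hg2⟩ := hg
    constructor
    · intro τ τ' h0 h1
      rw [add_mul, MonoidAlgebra.coeff_add, Finsupp.add_apply, Finsupp.add_apply,
        hf1 τ τ' h0 h1, hg1 τ τ' h0 h1]
    · intro τ
      have h1 := hf2 τ
      have h2 := hg2 τ
      simp only [add_mul, MonoidAlgebra.coeff_add, Finsupp.add_apply]
      linear_combination h1 + h2
  | single g r =>
    have e : MonoidAlgebra.single g r = r • MonoidAlgebra.single g (1 : F) := by
      ext; simp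
    rw [e, smul_mul_assoc]
    simp only [MonoidAlgebra.coeff_smul_apply, coeff_single_mul', coeff_Xi, smul_eq_mul,
      Perm.mul_apply]
    constructor
    · intro τ τ' h0 h1
      rw [h0, h1]
    · intro τ
      have key : ∀ x y : Fin n, x ≠ y → ind F x y + ind F y x = 1 := by
        intro x y hxy
        unfold ind
        rcases lt_or_gt_of_ne hxy with h | h
        · rw [if_pos h, if_neg (not_lt.2 h.le), add_zero]
        · rw [if_neg (not_lt.2 h.le), if_pos h, zero_add]
      have h01 : a0 hn ≠ a1 hn := by simp [a0, a1]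
      have e0 : swap (a0 hn) (a1 hn) ⟨0, by omega⟩ = a1 hn := swap_apply_left _ _
      have e1 : swap (a0 hn) (a1 hn) ⟨1, by omega⟩ = a0 hn := swap_apply_right _ _
      rw [e0, e1]
      have k1 := key (g⁻¹ (τ (a0 hn))) (g⁻¹ (τ (a1 hn)))
        (fun h => h01 (τ.injective (g⁻¹.injective h)))
      have k2 := key (g⁻¹ ((1 : Perm (Fin n)) (a0 hn))) (g⁻¹ ((1 : Perm (Fin n)) (a1 hn)))
        (fun h => h01 (g⁻¹.injective h))
      rw [← mul_add, ← mul_add]
      simp only [Perm.one_apply] at k2 ⊢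
      rw [k1, k2]

/-- two-point transitivity -/
lemma exists_pick (a b : Fin n) (hab : a ≠ b) :
    ∃ τ : Perm (Fin n), τ (a0 hn) = a ∧ τ (a1 hn) = b := by
  have h01 : a0 hn ≠ a1 hn := by simp [a0, a1]
  refine ⟨swap (swap (a0 hn) a (a1 hn)) b * swap (a0 hn) a, ?_, ?_⟩
  · rw [Perm.mul_apply, swap_apply_left]
    refine swap_apply_of_ne_of_ne ?_ hab
    intro h
    apply h01
    apply (swap (a0 hn) a).injective
    rw [swap_apply_left, ← h]
  · rw [Perm.mul_apply, swap_apply_left]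

lemma rep_coe (g : Perm (Fin n)) (v : X F (hk hn)) :
    (rep F (hk hn) g v).1 = MonoidAlgebra.single g (1 : F) * v.1 := rfl

lemma rep_coeff (g τ : Perm (Fin n)) (v : X F (hk hn)) :
    (rep F (hk hn) g v).1.coeff τ = v.1.coeff (g⁻¹ * τ) := by
  rw [rep_coe, coeff_single_mul']

/-- the element `Ξ` -/
def xx : X F (hk hn) := ⟨Xi F (hk hn), Submodule.subset_span rfl⟩

lemma xx_coeff (τ : Perm (Fin n)) : (xx (F := F) hn).1.coeff τ =
    ind F (τ (a0 hn)) (τ (a1 hn)) := coeff_Xi (by omega) τ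

/-- the functional `f` -/
def ff : Module.Dual F (X F (hk hn)) where
  toFun v := v.1.coeff 1
  map_add' v w := by simp
  map_smul' r v := by simp

lemma ff_apply (v : X F (hk hn)) : ff hn v = v.1.coeff 1 := rfl

variable [CharP F 2]

theorem not_selfDual : ¬ SelfDual (rep F (hk hn)) := by
  rintro ⟨e, he⟩
  set s : Perm (Fin n) := swap (a0 hn) (a1 hn) with hs
  have h01 : a0 hn ≠ a1 hn := by simp [a0, a1]
  have h23 : a2 hn ≠ a3 hn := by simp [a2, a3]
  have hsi : s⁻¹ = s := swap_inv _ _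
  -- the invariant functional
  set c : Module.Dual F (X F (hk hn)) := ff hn + (rep F (hk hn)).dual s (ff hn) with hc
  have hcv : ∀ v : X F (hk hn), c v = v.1.coeff 1 + v.1.coeff s := by
    intro v
    rw [hc, LinearMap.add_apply, ff_apply]
    congr 1
    change ff hn (rep F (hk hn) s⁻¹ v) = _
    rw [ff_apply, rep_coeff, inv_inv, mul_one]
  have hcinv : ∀ g, (rep F (hk hn)).dual g c = c := by
    intro g
    ext v
    change c (rep F (hk hn) g⁻¹ v) = c v
    rw [hcv, hcv, rep_coeff, rep_coeff, inv_inv, mul_one]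
    exact (X_prop hn v.2).2 g
  set z := e.symm c with hz
  set y := e.symm (ff hn) with hy
  have hzinv : ∀ g, rep F (hk hn) g z = z := by
    intro g
    apply e.injective
    rw [he, hz, e.apply_symm_apply, hcinv]
  have hsy : rep F (hk hn) s y + y = z := by
    apply e.injective
    rw [map_add, he, hy, hz, e.apply_symm_apply, e.apply_symm_apply, hc, add_comm]
  obtain ⟨τ, hτ0, hτ1⟩ := exists_pick hn (a2 hn) (a3 hn) h23
  have hzτ : z.1.coeff τ = 0 := by
    rw [← hsy]
    have e1 : (rep F (hk hn) s y + y).1.coeff τ =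
        (rep F (hk hn) s y).1.coeff τ + y.1.coeff τ := by simp
    rw [e1, rep_coeff, hsi]
    have e2 : y.1.coeff (s * τ) = y.1.coeff τ := by
      refine (X_prop hn y.2).1 _ _ ?_ ?_
      · rw [Perm.mul_apply, hτ0, hs, swap_apply_of_ne_of_ne] <;> simp [a0, a1, a2]
      · rw [Perm.mul_apply, hτ1, hs, swap_apply_of_ne_of_ne] <;> simp [a0, a1, a3]
    rw [e2]
    exact CharTwo.add_self_eq_zero _
  have hz0 : z = 0 := by
    apply Subtype.ext
    ext g
    have h1 := hzinv (τ * g⁻¹)
    have h2 : (rep F (hk hn) (τ * g⁻¹) z).1.coeff τ = z.1.coeff τ := by rw [h1]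
    rw [rep_coeff, hzτ] at h2
    have h3 : (τ * g⁻¹)⁻¹ * τ = g := by group
    rw [h3] at h2
    rw [h2]; simp
  have hc0 : c = 0 := by
    rw [← e.apply_symm_apply c, ← hz, hz0, map_zero]
  have h1 := hcv (xx hn)
  rw [hc0, xx_coeff, xx_coeff] at h1
  have h2 : ((1 : Perm (Fin n)) (a0 hn)) < (1 : Perm (Fin n)) (a1 hn) := by
    simp [a0, a1]
  have h3 : ¬ s (a0 hn) < s (a1 hn) := by
    rw [hs, swap_apply_left, swap_apply_right]
    simp [a0, a1]
  unfold ind at h1
  rw [if_pos h2, if_neg h3] at h1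
  simp at h1

end

end

noncomputable section
variable {F : Type} [Field F]

section
variable {G : Type} [Group G]

/-- a property of trivial source modules in characteristic two -/
def Good (g₁ g₂ : G) {V : Type} [AddCommGroup V] [Module F V] (ρ : Representation F G V) : Prop :=
  ∀ S x y : V, ρ g₁ x + x = S → ρ (g₁ * g₂) y + y = S → ρ g₂ S = S →
    ∃ z, ρ g₁ z + z = S ∧ ρ g₂ z + z = 0

variable [CharP F 2] {g₁ g₂ : G}

lemma good_perm (h1 : g₁ * g₁ = 1) (h2 : g₂ * g₂ = 1) (h12 : g₁ * g₂ = g₂ * g₁)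
    (Ω : Type) [MulAction G Ω] : Good g₁ g₂ (Representation.ofMulAction F G Ω) := by
  classical
  intro S x y hx hy hS
  have i1 : g₁⁻¹ = g₁ := inv_eq_of_mul_eq_one_left h1
  have i2 : g₂⁻¹ = g₂ := inv_eq_of_mul_eq_one_left h2
  have i3 : (g₁ * g₂)⁻¹ = g₁ * g₂ := by rw [mul_inv_rev, i1, i2, h12]
  have cS : ∀ ω : Ω, S.coeff ω = x.coeff (g₁ • ω) + x.coeff ω := by
    intro ω
    rw [← hx, MonoidAlgebra.coeff_add, Finsupp.add_apply, Representation.coeff_ofMulAction, i1]
  have cS3 : ∀ ω : Ω, S.coeff ω = y.coeff ((g₁ * g₂) • ω) + y.coeff ω := by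
    intro ω
    rw [← hy, MonoidAlgebra.coeff_add, Finsupp.add_apply, Representation.coeff_ofMulAction, i3]
  have cS2 : ∀ ω : Ω, S.coeff (g₂ • ω) = S.coeff ω := by
    intro ω
    conv_rhs => rw [← hS, Representation.coeff_ofMulAction, i2]
  have g11 : ∀ ω : Ω, g₁ • g₁ • ω = ω := fun ω => by rw [smul_smul, h1, one_smul]
  have g22 : ∀ ω : Ω, g₂ • g₂ • ω = ω := fun ω => by rw [smul_smul, h2, one_smul]
  have g12 : ∀ ω : Ω, g₁ • g₂ • ω = g₂ • g₁ • ω := fun ω => by rw [smul_smul, smul_smul, h12]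
  have cS1 : ∀ ω : Ω, S.coeff (g₁ • ω) = S.coeff ω := by
    intro ω
    rw [cS, cS, g11, add_comm]
  have fix1 : ∀ ω : Ω, g₁ • ω = ω → S.coeff ω = 0 := by
    intro ω h
    rw [cS, h]; exact CharTwo.add_self_eq_zero _
  have fix3 : ∀ ω : Ω, g₁ • g₂ • ω = ω → S.coeff ω = 0 := by
    intro ω h
    rw [cS3, mul_smul, h]; exact CharTwo.add_self_eq_zero _
  let _ : LinearOrder Ω := IsWellOrder.linearOrder WellOrderingRel
  let m : Ω → Ω := fun ω => min ω (g₂ • ω)
  have m2 : ∀ ω, m (g₂ • ω) = m ω := by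
    intro ω
    simp only [m, g22]
    exact min_comm _ _
  have meq : ∀ ω, m ω = m (g₁ • ω) → S.coeff ω = 0 := by
    intro ω h
    have e1 : m ω = ω ∨ m ω = g₂ • ω := min_choice _ _
    have e2 : m (g₁ • ω) = g₁ • ω ∨ m (g₁ • ω) = g₂ • g₁ • ω := min_choice _ _
    rcases e1 with e1 | e1 <;> rcases e2 with e2 | e2
    · exact fix1 ω (by rw [← e2, ← h, e1])
    · exact fix3 ω (by rw [g12, ← e2, ← h, e1])
    · have h3 : g₂ • ω = g₁ • ω := by rw [← e1, h, e2]
      exact fix3 ω (by rw [h3, g11])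
    · have h3 : g₂ • ω = g₂ • g₁ • ω := by rw [← e1, h, e2]
      exact fix1 ω ((MulAction.injective g₂ h3).symm)
  let z : MonoidAlgebra F Ω := MonoidAlgebra.ofCoeff (S.coeff.filter fun ω => m ω < m (g₁ • ω))
  have cz : ∀ ω, z.coeff ω = if m ω < m (g₁ • ω) then S.coeff ω else 0 := by
    intro ω
    exact Finsupp.filter_apply _ _ _
  refine ⟨z, ?_, ?_⟩
  · ext ω
    rw [MonoidAlgebra.coeff_add, Finsupp.add_apply, Representation.coeff_ofMulAction, i1, cz, cz,
      g11, cS1]
    rcases lt_trichotomy (m ω) (m (g₁ • ω)) with h | h | h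
    · rw [if_neg (not_lt.2 h.le), if_pos h, zero_add]
    · rw [meq ω h]; simp
    · rw [if_pos h, if_neg (not_lt.2 h.le), add_zero]
  · ext ω
    rw [MonoidAlgebra.coeff_add, Finsupp.add_apply, Representation.coeff_ofMulAction, i2, cz, cz,
      m2, cS2, g12, m2]
    rw [CharTwo.add_self_eq_zero]; simp

lemma good_of_trivialSource (h1 : g₁ * g₁ = 1) (h2 : g₂ * g₂ = 1) (h12 : g₁ * g₂ = g₂ * g₁)
    {V : Type} [AddCommGroup V] [Module F V] {ρ : Representation F G V} (h : TrivialSource ρ) :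
    Good g₁ g₂ ρ := by
  obtain ⟨Ω, _, ι, π, hι, hπ, hπι⟩ := h
  intro S x y hx hy hS
  obtain ⟨z, hz1, hz2⟩ := good_perm (F := F) h1 h2 h12 Ω (ι S) (ι x) (ι y)
    (by rw [← hι, ← map_add, hx]) (by rw [← hι, ← map_add, hy]) (by rw [← hι, hS])
  refine ⟨π z, ?_, ?_⟩
  · rw [← hπ, ← map_add, hz1, hπι]
  · rw [← hπ, ← map_add, hz2, map_zero]

lemma good_pi {r : ℕ} {V : Fin r → Type} [∀ i, AddCommGroup (V i)] [∀ i, Module F (V i)]
    {σ : ∀ i, Representation F G (V i)} (h : ∀ i, Good g₁ g₂ (σ i))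
    {W : Type} [AddCommGroup W] [Module F W] {ρ : Representation F G W}
    (e : W ≃ₗ[F] (∀ i, V i)) (he : ∀ g w i, e (ρ g w) i = σ i g (e w i)) : Good g₁ g₂ ρ := by
  intro S x y hx hy hS
  have := fun i => h i (e S i) (e x i) (e y i) (by rw [← he, ← hx]; simp)
    (by rw [← he, ← hy]; simp) (by rw [← he, hS])
  choose z hz1 hz2 using this
  refine ⟨e.symm z, ?_, ?_⟩
  · apply e.injective
    funext i
    have := hz1 i
    rw [map_add, Pi.add_apply, he, e.apply_symm_apply, this]
  · apply e.injective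
    funext i
    have := hz2 i
    rw [map_add, Pi.add_apply, he, e.apply_symm_apply, this, map_zero]; rfl

end

section
variable {n : ℕ} (hn : 4 ≤ n) [CharP F 2]

/-- the coefficient function of `e(a, b)` -/
def eco (F : Type) [Field F] {n : ℕ} (a b x y : Fin n) : F :=
  if (x = a ∧ y = b) ∨ (x = b ∧ y = a) then 1 else 0

/-- adjacent transpositions reverse exactly one pair -/
lemma ind_swap (i : ℕ) (hi : i + 1 < n) (x y : Fin n) (hxy : x ≠ y) :
    ind F (swap (⟨i, by omega⟩ : Fin n) ⟨i + 1, hi⟩ x) (swap (⟨i, by omega⟩ : Fin n) ⟨i + 1, hi⟩ y) +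
      ind F x y = eco F ⟨i, by omega⟩ ⟨i + 1, hi⟩ x y := by
  have hxy' : (x : ℕ) ≠ y := fun h => hxy (Fin.ext h)
  have h11 : (1 : F) + 1 = 0 := CharTwo.add_self_eq_zero _
  have key : ∀ z : Fin n, ((swap (⟨i, by omega⟩ : Fin n) ⟨i + 1, hi⟩ z : Fin n) : ℕ) =
      if (z : ℕ) = i then i + 1 else if (z : ℕ) = i + 1 then i else z := by
    intro z
    rw [swap_apply_def]
    simp only [Fin.ext_iff]
    split_ifs <;> rfl
  simp only [ind, eco, Fin.lt_def, key, Fin.ext_iff]
  split_ifs <;> first | omega | simp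

end

end

noncomputable section
variable {F : Type} [Field F] {n : ℕ} (hn : 4 ≤ n) [CharP F 2]

lemma rep_add_coeff (g τ : Perm (Fin n)) (v : X F (hk hn)) :
    (rep F (hk hn) g v + v).1.coeff τ = v.1.coeff (g⁻¹ * τ) + v.1.coeff τ := by
  have e1 : (rep F (hk hn) g v + v).1.coeff τ =
      (rep F (hk hn) g v).1.coeff τ + v.1.coeff τ := by simp
  rw [e1, rep_coeff]

/-- the element `e(i, i+1)` -/
def ee (i : ℕ) (hi : i + 1 < n) : X F (hk hn) :=
  rep F (hk hn) (swap (⟨i, by omega⟩ : Fin n) ⟨i + 1, hi⟩) (xx hn) + xx hn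

lemma ee_coeff (i : ℕ) (hi : i + 1 < n) (τ : Perm (Fin n)) :
    (ee (F := F) hn i hi).1.coeff τ = eco F ⟨i, by omega⟩ ⟨i + 1, hi⟩ (τ (a0 hn)) (τ (a1 hn)) := by
  rw [ee, rep_add_coeff, xx_coeff, xx_coeff, swap_inv, Perm.mul_apply, Perm.mul_apply]
  refine ind_swap i hi _ _ ?_
  intro h
  have := τ.injective h
  simp [a0, a1] at this

lemma eco_perm (a b x y : Fin n) (g : Perm (Fin n)) :
    eco F a b (g⁻¹ x) (g⁻¹ y) = eco F (g a) (g b) x y := by
  simp only [eco, Perm.inv_eq_iff_eq, eq_comm]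
  simp only [Perm.eq_inv_iff_eq, eq_comm]

lemma eco_symm (a b x y : Fin n) : eco F a b x y = eco F b a x y := by
  simp only [eco, or_comm]

theorem not_good : ¬ Good (F := F) (swap (a0 hn) (a1 hn) * swap (a2 hn) (a3 hn))
    (swap (a0 hn) (a2 hn) * swap (a1 hn) (a3 hn)) (rep F (hk hn)) := by
  intro H
  set s : Perm (Fin n) := swap (a0 hn) (a1 hn) with hs
  set s' : Perm (Fin n) := swap (a2 hn) (a3 hn) with hs'
  set g₁ := s * s' with hg1
  set g₂ : Perm (Fin n) := swap (a0 hn) (a2 hn) * swap (a1 hn) (a3 hn) with hg2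
  have n01 : a0 hn ≠ a1 hn := by simp [a0, a1]
  have n02 : a0 hn ≠ a2 hn := by simp [a0, a2]
  have n03 : a0 hn ≠ a3 hn := by simp [a0, a3]
  have n12 : a1 hn ≠ a2 hn := by simp [a1, a2]
  have n13 : a1 hn ≠ a3 hn := by simp [a1, a3]
  have n23 : a2 hn ≠ a3 hn := by simp [a2, a3]
  -- values
  have v10 : g₁ (a0 hn) = a1 hn := by
    rw [hg1, Perm.mul_apply, hs', swap_apply_of_ne_of_ne n02 n03, hs, swap_apply_left]
  have v11 : g₁ (a1 hn) = a0 hn := by
    rw [hg1, Perm.mul_apply, hs', swap_apply_of_ne_of_ne n12 n13, hs, swap_apply_right]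
  have v12 : g₁ (a2 hn) = a3 hn := by
    rw [hg1, Perm.mul_apply, hs', swap_apply_left, hs, swap_apply_of_ne_of_ne n03.symm n13.symm]
  have v13 : g₁ (a3 hn) = a2 hn := by
    rw [hg1, Perm.mul_apply, hs', swap_apply_right, hs, swap_apply_of_ne_of_ne n02.symm n12.symm]
  have v20 : g₂ (a0 hn) = a2 hn := by
    rw [hg2, Perm.mul_apply, swap_apply_of_ne_of_ne n01 n03, swap_apply_left]
  have v21 : g₂ (a1 hn) = a3 hn := by
    rw [hg2, Perm.mul_apply, swap_apply_left, swap_apply_of_ne_of_ne n03.symm n23.symm]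
  have v22 : g₂ (a2 hn) = a0 hn := by
    rw [hg2, Perm.mul_apply, swap_apply_of_ne_of_ne n12.symm n23, swap_apply_right]
  have v23 : g₂ (a3 hn) = a1 hn := by
    rw [hg2, Perm.mul_apply, swap_apply_right, swap_apply_of_ne_of_ne n01.symm n12]
  let E01 : X F (hk hn) := ee hn 0 (by omega)
  let E23 : X F (hk hn) := ee hn 2 (by omega)
  have c01 : ∀ τ : Perm (Fin n), E01.1.coeff τ = eco F (a0 hn) (a1 hn) (τ (a0 hn)) (τ (a1 hn)) :=
    fun τ => ee_coeff hn 0 (by omega) τ
  have c23 : ∀ τ : Perm (Fin n), E23.1.coeff τ = eco F (a2 hn) (a3 hn) (τ (a0 hn)) (τ (a1 hn)) :=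
    fun τ => ee_coeff hn 2 (by omega) τ
  -- (i) `g₁ Ξ + Ξ = e01 + e23`
  have hS1 : rep F (hk hn) g₁ (xx hn) + xx hn = E01 + E23 := by
    have e1 : rep F (hk hn) s' (xx hn) + xx hn = E23 := rfl
    have e2 : rep F (hk hn) s (xx hn) + xx hn = E01 := rfl
    have e3 : rep F (hk hn) s E23 = E23 := by
      apply Subtype.ext
      ext τ
      rw [rep_coeff, c23, c23, Perm.mul_apply, Perm.mul_apply, eco_perm]
      rw [hs, swap_apply_of_ne_of_ne n02.symm n12.symm, swap_apply_of_ne_of_ne n03.symm n13.symm]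
    have e4 : rep F (hk hn) g₁ (xx hn) = rep F (hk hn) s (rep F (hk hn) s' (xx hn)) := by
      rw [hg1, map_mul]; rfl
    have e5 : rep F (hk hn) s' (xx hn) = E23 + xx hn := by
      rw [← e1, add_assoc]
      have : xx (F := F) hn + xx hn = 0 := by
        rw [← two_smul F, CharTwo.two_eq_zero, zero_smul]
      rw [this, add_zero]
    rw [e4, e5, map_add, e3, add_assoc, e2, add_comm]
  have hS3 : rep F (hk hn) (g₁ * g₂) E01 + E01 = E01 + E23 := by
    rw [add_comm]
    congr 1
    apply Subtype.ext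
    ext τ
    have w0 : (g₁ * g₂) (a0 hn) = a3 hn := (congrArg g₁ v20).trans v12
    have w1 : (g₁ * g₂) (a1 hn) = a2 hn := (congrArg g₁ v21).trans v13
    rw [rep_coeff, c01, c23, Perm.mul_apply (g₁ * g₂)⁻¹ τ (a0 hn),
      Perm.mul_apply (g₁ * g₂)⁻¹ τ (a1 hn), eco_perm, w0, w1, eco_symm]
  have hS2 : rep F (hk hn) g₂ (E01 + E23) = E01 + E23 := by
    rw [map_add, add_comm]
    congr 1
    · apply Subtype.ext
      ext τ
      rw [rep_coeff, c01, c23, Perm.mul_apply, Perm.mul_apply, eco_perm, v22, v23]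
    · apply Subtype.ext
      ext τ
      rw [rep_coeff, c01, c23, Perm.mul_apply, Perm.mul_apply, eco_perm, v20, v21]
  obtain ⟨z, hz1, hz2⟩ := H (E01 + E23) (xx hn) E01 hS1 hS3 hS2
  have p1 := (X_prop hn z.2).1
  have p2 := (X_prop hn z.2).2
  -- evaluate the first equation at `1`
  have q1 : z.1.coeff 1 + z.1.coeff s = 1 := by
    have h : (rep F (hk hn) g₁ z + z).1.coeff 1 = (E01 + E23).1.coeff 1 :=
      congrArg (fun v : X F (hk hn) => v.1.coeff 1) hz1
    rw [rep_add_coeff, mul_one] at h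
    have h' : (E01 + E23).1.coeff 1 = 1 := by
      have : (E01 + E23).1.coeff 1 = E01.1.coeff 1 + E23.1.coeff 1 := by simp
      rw [this, c01, c23]
      simp [eco, a0, a1, a2, a3]
    rw [h'] at h
    have h2 : z.1.coeff g₁⁻¹ = z.1.coeff s := by
      refine p1 _ _ ?_ ?_
      · rw [Perm.inv_eq_iff_eq, hs, swap_apply_left, v11]
      · rw [Perm.inv_eq_iff_eq, hs, swap_apply_right, v10]
    rw [h2] at h
    rw [add_comm]; exact h
  -- evaluate the second at `(0, 2)`
  obtain ⟨τ, hτ0, hτ1⟩ := exists_pick hn (a0 hn) (a2 hn) n02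
  have q2 : z.1.coeff τ + z.1.coeff (τ * s) = 0 := by
    have h : (rep F (hk hn) g₂ z + z).1.coeff τ = (0 : X F (hk hn)).1.coeff τ :=
      congrArg (fun v : X F (hk hn) => v.1.coeff τ) hz2
    rw [rep_add_coeff] at h
    have h0 : (0 : X F (hk hn)).1.coeff τ = 0 := by simp
    rw [h0] at h
    have h2 : z.1.coeff (g₂⁻¹ * τ) = z.1.coeff (τ * s) := by
      refine p1 _ _ ?_ ?_
      · rw [Perm.mul_apply, Perm.mul_apply, hs, swap_apply_left, hτ0, hτ1, Perm.inv_eq_iff_eq, v22]
      · rw [Perm.mul_apply, Perm.mul_apply, hs, swap_apply_right, hτ0, hτ1, Perm.inv_eq_iff_eq,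
          v20]
    rw [h2, add_comm] at h
    exact h
  rw [p2 τ, q1] at q2
  exact one_ne_zero q2

/-- **Result.** Let `F` be a field of characteristic two, `n ≥ 4` and `q = (2, 1, …, 1)`.  Then
`X^q_F` is not self-dual, it is not a direct summand of a permutation module, and it is not
isomorphic to a direct sum of direct summands of permutation modules (in particular, it is not
isomorphic to a direct sum of Young modules). -/
theorem result (F : Type) [Field F] [CharP F 2] (n : ℕ) (hn : 4 ≤ n) :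
    ¬ SelfDual (rep F (hook n (two_le hn))) ∧
    ¬ TrivialSource (rep F (hook n (two_le hn))) ∧
    ¬ SumOfTrivialSource (rep F (hook n (two_le hn))) := by
  have n01 : a0 hn ≠ a1 hn := by simp [a0, a1]
  have n02 : a0 hn ≠ a2 hn := by simp [a0, a2]
  have n03 : a0 hn ≠ a3 hn := by simp [a0, a3]
  have n12 : a1 hn ≠ a2 hn := by simp [a1, a2]
  have n13 : a1 hn ≠ a3 hn := by simp [a1, a3]
  have n23 : a2 hn ≠ a3 hn := by simp [a2, a3]
  set g₁ := swap (a0 hn) (a1 hn) * swap (a2 hn) (a3 hn) with hg1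
  set g₂ : Perm (Fin n) := swap (a0 hn) (a2 hn) * swap (a1 hn) (a3 hn) with hg2
  have hd : ∀ {a b c d : Fin n}, a ≠ c → a ≠ d → b ≠ c → b ≠ d →
      Commute (swap a b) (swap c d) := by
    intro a b c d h1 h2 h3 h4
    apply Perm.Disjoint.commute
    intro x
    by_cases hx : x = a ∨ x = b
    · right
      rcases hx with rfl | rfl
      · exact swap_apply_of_ne_of_ne h1 h2
      · exact swap_apply_of_ne_of_ne h3 h4
    · left
      push Not at hx
      exact swap_apply_of_ne_of_ne hx.1 hx.2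
  have h1 : g₁ * g₁ = 1 := by
    have hc := hd n02 n03 n12 n13
    rw [hg1]
    calc _ = swap (a0 hn) (a1 hn) * (swap (a2 hn) (a3 hn) * swap (a0 hn) (a1 hn)) *
          swap (a2 hn) (a3 hn) := by group
      _ = 1 := by rw [← hc.eq]; simp [mul_assoc]
  have h2 : g₂ * g₂ = 1 := by
    have hc := hd n01 n03 n12.symm n23
    rw [hg2]
    calc _ = swap (a0 hn) (a2 hn) * (swap (a1 hn) (a3 hn) * swap (a0 hn) (a2 hn)) *
          swap (a1 hn) (a3 hn) := by group
      _ = 1 := by rw [← hc.eq]; simp [mul_assoc]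
  have h12 : g₁ * g₂ = g₂ * g₁ := by
    ext x : 1
    by_cases x0 : x = a0 hn
    · subst x0
      simp [hg1, hg2, swap_apply_def, n01, n02, n03, n12, n13, n23, n01.symm, n02.symm, n03.symm,
        n12.symm, n13.symm, n23.symm]
    by_cases x1 : x = a1 hn
    · subst x1
      simp [hg1, hg2, swap_apply_def, n01, n02, n03, n12, n13, n23, n01.symm, n02.symm, n03.symm,
        n12.symm, n13.symm, n23.symm]
    by_cases x2 : x = a2 hn
    · subst x2
      simp [hg1, hg2, swap_apply_def, n01, n02, n03, n12, n13, n23, n01.symm, n02.symm, n03.symm,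
        n12.symm, n13.symm, n23.symm]
    by_cases x3 : x = a3 hn
    · subst x3
      simp [hg1, hg2, swap_apply_def, n01, n02, n03, n12, n13, n23, n01.symm, n02.symm, n03.symm,
        n12.symm, n13.symm, n23.symm]
    · simp [hg1, hg2, swap_apply_def, x0, x1, x2, x3]
  refine ⟨not_selfDual hn, fun h => not_good hn (good_of_trivialSource h1 h2 h12 h), ?_⟩
  rintro ⟨r, V, _, _, σ, e, hσ, he⟩
  exact not_good hn (good_pi (fun i => good_of_trivialSource h1 h2 h12 (hσ i)) e he)

end

end Pool.Agent.Results.MP_45e6b1_al.CharTwoHook
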